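import Pool.Agent.W120.WM.Defs

set_option autoImplicit false

open MeasureTheory Filter Topology Set Complex

namespace Pool.Agent.W191.WM

open Pool.Agent.W120.WM

/-- `1/ζ` is bounded for `re s ≥ 3/2` -/
theorem zeta_inv_right : ∃ B : ℝ, 1 ≤ B ∧ ∀ s : ℂ, 3 / 2 ≤ s.re →
    riemannZeta s ≠ 0 ∧ ‖(riemannZeta s)⁻¹‖ ≤ B := by
  have hsum : Summable (fun n : ℕ => 1 / (n : ℝ) ^ (3 / 2 : ℝ)) :=
    Real.summable_one_div_nat_rpow.2 (by norm_num)
  refine ⟨max 1 (∑' n : ℕ, 1 / (n : ℝ) ^ (3 / 2 : ℝ)), le_max_left _ _, fun s hs => ?_⟩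
  have hs1 : 1 < s.re := by linarith
  have h0 : riemannZeta s ≠ 0 := riemannZeta_ne_zero_of_one_lt_re hs1
  refine ⟨h0, ?_⟩
  have h1 := ArithmeticFunction.LSeries_zeta_mul_Lseries_moebius hs1
  rw [ArithmeticFunction.LSeries_zeta_eq_riemannZeta hs1] at h1
  have h2 := inv_eq_of_mul_eq_one_right h1
  rw [h2]
  have hterm : ∀ n : ℕ, ‖LSeries.term (fun n => ((ArithmeticFunction.moebius n : ℤ) : ℂ)) s n‖ ≤
      1 / (n : ℝ) ^ (3 / 2 : ℝ) := by
    intro n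
    rw [LSeries.norm_term_eq]
    split_ifs with hn
    · positivity
    · have hn1 : (1 : ℝ) ≤ n := by exact_mod_cast Nat.one_le_iff_ne_zero.2 hn
      have hmu : ‖((ArithmeticFunction.moebius n : ℤ) : ℂ)‖ ≤ 1 := by
        rw [Complex.norm_intCast]
        exact_mod_cast ArithmeticFunction.abs_moebius_le_one
      have hpow : (n : ℝ) ^ (3 / 2 : ℝ) ≤ (n : ℝ) ^ s.re :=
        Real.rpow_le_rpow_of_exponent_le hn1 hs
      have hpos : 0 < (n : ℝ) ^ (3 / 2 : ℝ) := by positivity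
      gcongr
  unfold LSeries
  have hs2 : Summable (fun n : ℕ =>
      ‖LSeries.term (fun n => ((ArithmeticFunction.moebius n : ℤ) : ℂ)) s n‖) :=
    Summable.of_nonneg_of_le (fun _ => norm_nonneg _) hterm hsum
  exact ((norm_tsum_le_tsum_norm hs2).trans (hs2.tsum_le_tsum hterm hsum)).trans (le_max_right _ _)

lemma norm_Gammaℝ_conj (z : ℂ) : ‖Gammaℝ ((starRingEnd ℂ) z)‖ = ‖Gammaℝ z‖ := by
  have h : ∀ w : ℂ, ‖Gammaℝ w‖ = Real.pi ^ (-w.re / 2) * ‖Complex.Gamma (w / 2)‖ := by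
    intro w
    rw [Gammaℝ_def, norm_mul, Complex.norm_cpow_eq_rpow_re_of_pos Real.pi_pos]
    congr 2
    simp
  rw [h, h]
  congr 1
  have : (starRingEnd ℂ) z / 2 = (starRingEnd ℂ) (z / 2) := by
    rw [map_div₀, map_ofNat]
  rw [this, Complex.Gamma_conj, Complex.norm_conj]

lemma norm_zeta_left (t : ℝ) : ‖riemannZeta (⟨-1 / 2, t⟩ : ℂ)‖ =
    ‖riemannZeta (1 - (⟨-1 / 2, t⟩ : ℂ))‖ * (‖(⟨-1 / 2, t⟩ : ℂ)‖ / (2 * Real.pi)) := by
  set s : ℂ := ⟨-1 / 2, t⟩ with hs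
  have hre : s.re = -1 / 2 := rfl
  have hs0 : s ≠ 0 := by
    intro h
    rw [h] at hre
    norm_num at hre
  have hs1 : 1 - s ≠ 0 := by
    intro h
    have := congrArg Complex.re h
    rw [Complex.sub_re, hre] at this
    norm_num at this
  have hG : Gammaℝ s ≠ 0 := by
    intro h
    obtain ⟨n, hn⟩ := Gammaℝ_eq_zero_iff.1 h
    have h1 := congrArg Complex.re hn
    rw [hre] at h1
    simp at h1
    have h2 : (4 * n : ℝ) = 1 := by linarith
    have h3 : 4 * n = 1 := by exact_mod_cast h2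
    omega
  have hG1 : Gammaℝ (1 - s) ≠ 0 := by
    apply Gammaℝ_ne_zero_of_re_pos
    rw [Complex.sub_re, hre]
    norm_num
  have e1 : 1 - s = (starRingEnd ℂ) (s + 2) := by
    apply Complex.ext
    · simp [hs]; norm_num
    · simp [hs]
  have e2 : ‖Gammaℝ (1 - s)‖ = ‖Gammaℝ s‖ * (‖s‖ / (2 * Real.pi)) := by
    rw [e1, norm_Gammaℝ_conj, Gammaℝ_add_two hs0]
    rw [norm_div, norm_div, norm_mul]
    have : ‖(Real.pi : ℂ)‖ = Real.pi := by
      rw [Complex.norm_real, Real.norm_eq_abs, abs_of_pos Real.pi_pos]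
    rw [this]
    simp
    field_simp
  rw [riemannZeta_def_of_ne_zero hs0, riemannZeta_def_of_ne_zero hs1, completedRiemannZeta_one_sub,
    norm_div, norm_div, e2]
  have h3 : 0 < ‖Gammaℝ s‖ := norm_pos_iff.2 hG
  have h4 : 0 < ‖s‖ := norm_pos_iff.2 hs0
  have h5 := Real.pi_pos
  field_simp

lemma normsq_left (t : ℝ) : ‖(⟨-1 / 2, t⟩ : ℂ)‖ ^ 2 = 1 / 4 + t ^ 2 := by
  rw [← Complex.normSq_eq_norm_sq, Complex.normSq_mk]
  ring

theorem left : T_LEFT := by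
  obtain ⟨B, hB, hr⟩ := zeta_inv_right
  refine ⟨2 * Real.pi * B, by positivity, fun t => ?_⟩
  have hre : (1 - (⟨-1 / 2, t⟩ : ℂ)).re = 3 / 2 := by
    rw [Complex.sub_re]
    norm_num
  obtain ⟨h0, h1⟩ := hr (1 - (⟨-1 / 2, t⟩ : ℂ)) (by rw [hre])
  have hn := norm_zeta_left t
  have hsq := normsq_left t
  set s : ℂ := ⟨-1 / 2, t⟩ with hs
  have hz : 0 < ‖riemannZeta (1 - s)‖ := norm_pos_iff.2 h0
  have hs2 : 0 < ‖s‖ ^ 2 := by rw [hsq]; positivity
  have hs1 : 0 < ‖s‖ := by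
    rcases (norm_nonneg s).lt_or_eq with h | h
    · exact h
    · rw [← h] at hs2; norm_num at hs2
  have hpi := Real.pi_pos
  have hpos : 0 < ‖riemannZeta s‖ := by
    rw [hn]
    positivity
  refine ⟨norm_pos_iff.1 hpos, ?_⟩
  rw [← hsq, norm_inv, norm_mul, hn]
  rw [norm_inv] at h1
  have e : (‖s‖ * (‖riemannZeta (1 - s)‖ * (‖s‖ / (2 * Real.pi))))⁻¹ =
      2 * Real.pi * ‖riemannZeta (1 - s)‖⁻¹ / ‖s‖ ^ 2 := by
    field_simp
  rw [e]
  gcongr

lemma norm_EE_left (h v t : ℝ) (hh : 0 < h) (hh1 : h ≤ 1) :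
    ‖EE h v (⟨-1 / 2, t⟩ : ℂ)‖ ≤ Real.exp (1 / 8) * Real.exp (-v / 2) := by
  unfold EE
  rw [Complex.norm_exp, ← Real.exp_add]
  apply Real.exp_le_exp.2
  have e1 : ((h : ℂ) ^ 2 / 2 * (⟨-1 / 2, t⟩ : ℂ) ^ 2 + v * (⟨-1 / 2, t⟩ : ℂ)).re =
      h ^ 2 / 2 * (1 / 4 - t ^ 2) - v / 2 := by
    have e2 : ((h : ℂ) ^ 2 / 2) = ((h ^ 2 / 2 : ℝ) : ℂ) := by push_cast; ring
    rw [e2, Complex.add_re, Complex.re_ofReal_mul, Complex.re_ofReal_mul, sq (⟨-1 / 2, t⟩ : ℂ),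
      Complex.mul_re]
    ring
  rw [e1]
  have h2 : h ^ 2 ≤ 1 := by nlinarith
  have h3 : h ^ 2 / 2 * (1 / 4 - t ^ 2) ≤ 1 / 8 := by
    have : 0 ≤ h ^ 2 * t ^ 2 := by positivity
    nlinarith
  linarith

lemma cont_line (h v : ℝ) (hz : ∀ t : ℝ, riemannZeta (⟨-1 / 2, t⟩ : ℂ) ≠ 0) :
    Continuous (fun t : ℝ => GG h v (⟨-1 / 2, t⟩ : ℂ)) := by
  have hc : Continuous (fun t : ℝ => (⟨-1 / 2, t⟩ : ℂ)) := by
    have : (fun t : ℝ => (⟨-1 / 2, t⟩ : ℂ)) = fun t : ℝ => ((-1 / 2 : ℝ) : ℂ) + t * I := by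
      funext t
      apply Complex.ext <;> simp
    rw [this]
    fun_prop
  have hzc : Continuous (fun t : ℝ => riemannZeta (⟨-1 / 2, t⟩ : ℂ)) := by
    rw [continuous_iff_continuousAt]
    intro t
    have h1 : ContinuousAt riemannZeta (⟨-1 / 2, t⟩ : ℂ) := by
      apply (differentiableAt_riemannZeta _).continuousAt
      intro h2
      have := congrArg Complex.re h2
      norm_num at this
    exact ContinuousAt.comp (f := fun t : ℝ => (⟨-1 / 2, t⟩ : ℂ)) h1 hc.continuousAt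
  unfold GG EE
  refine Continuous.div (by fun_prop) (hc.mul hzc) ?_
  intro t
  refine mul_ne_zero ?_ (hz t)
  intro h2
  have := congrArg Complex.re h2
  norm_num at this

theorem lb : T_LB := by
  obtain ⟨B, hB, hl⟩ := left
  have hint0 : Integrable (fun t : ℝ => B / (1 / 4 + t ^ 2)) := by
    have h1 : Integrable (fun t : ℝ => (1 + t ^ 2)⁻¹) := integrable_inv_one_add_sq
    have h2 := (h1.comp_mul_left' (R := (2 : ℝ)) (by norm_num)).const_mul (4 * B)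
    refine h2.congr (Filter.Eventually.of_forall fun t => ?_)
    simp only
    have : (0 : ℝ) < 1 + (2 * t) ^ 2 := by positivity
    have : (0 : ℝ) < 1 / 4 + t ^ 2 := by positivity
    field_simp
    ring
  set J : ℝ := ∫ t : ℝ, B / (1 / 4 + t ^ 2) with hJ
  have hJ0 : 0 ≤ J := integral_nonneg fun t => by positivity
  refine ⟨Real.exp (1 / 8) * J + 1, by positivity, fun h v hh hh1 => ?_⟩
  have hbd : ∀ t : ℝ, ‖GG h v (⟨-1 / 2, t⟩ : ℂ)‖ ≤
      (Real.exp (1 / 8) * Real.exp (-v / 2)) * (B / (1 / 4 + t ^ 2)) := by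
    intro t
    unfold GG
    rw [div_eq_mul_inv, norm_mul]
    exact mul_le_mul (norm_EE_left h v t hh hh1) (hl t).2 (norm_nonneg _) (by positivity)
  have hint1 : Integrable (fun t : ℝ =>
      (Real.exp (1 / 8) * Real.exp (-v / 2)) * (B / (1 / 4 + t ^ 2))) := hint0.const_mul _
  constructor
  · refine hint1.mono' (cont_line h v fun t => (hl t).1).aestronglyMeasurable ?_
    exact Filter.Eventually.of_forall hbd
  · refine (norm_integral_le_of_norm_le hint1 (Filter.Eventually.of_forall hbd)).trans ?_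
    rw [integral_const_mul, ← hJ]
    have := Real.exp_pos (-v / 2)
    nlinarith

end Pool.Agent.W191.WM
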